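import Mathlib
import Pool.Agent.H8.BR1

namespace Pool.Agent.Results.MP_bab9cd_gt.Paracompact

theorem result :
    ∃ (X : Type) (_ : TopologicalSpace X) (B : Set (Set X)),
      T2Space X ∧ ParacompactSpace X ∧ (∀ x : X, ¬ IsOpen ({x} : Set X)) ∧
      TopologicalSpace.IsTopologicalBasis B ∧
      ∀ B0 B1 : Set (Set X), B = B0 ∪ B1 → Disjoint B0 B1 →
        ¬ (TopologicalSpace.IsTopologicalBasis B0 ∧ TopologicalSpace.IsTopologicalBasis B1) :=
  ⟨H8.BR.X, inferInstance, H8.BR.Base, inferInstance, inferInstance, H8.BR.no_isol, H8.BR.basis,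
    fun B0 B1 hu hd h => H8.BR.base_nonres B0 B1 hu hd h.1 h.2⟩

end Pool.Agent.Results.MP_bab9cd_gt.Paracompact
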